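import Pool.Agent.LE.StmtsQG

/-!
# Squad LQF, row USM: smoothness of the functional
-/

set_option autoImplicit false

open MeasureTheory ProbabilityTheory Function Filter

open scoped ENNReal BigOperators Topology NNReal ComplexOrder Matrix

noncomputable section

namespace Pool.Agent.LE.QF.H44

open Pool.Agent.Anderson hiding box mem_box card_box
open Pool.Agent.Loc Pool.Agent.Mob Pool.Agent.Helper54.Bal
  Pool.Agent.Helper96.EXP Pool.Agent.BED
open Pool.Agent.LE.MN Pool.Agent.LE.CL Pool.Agent.LE.IR Pool.Agent.LE.QD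

section smooth

variable {𝕜 : Type} [RCLike 𝕜] {E : Type} [NormedAddCommGroup E] [NormedSpace ℝ E]

/-- entrywise smoothness -/
def CM {a b : Type} (F : E → Matrix a b 𝕜) (q : E) : Prop :=
  ∀ i j, ContDiffAt ℝ 2 (fun r => F r i j) q

theorem CM.const {a b : Type} (A : Matrix a b 𝕜) (q : E) : CM (fun _ => A) q :=
  fun _ _ => contDiffAt_const

theorem CM.add {a b : Type} {F H : E → Matrix a b 𝕜} {q : E} (hF : CM F q) (hH : CM H q) :
    CM (fun r => F r + H r) q := fun i j => (hF i j).add (hH i j)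

theorem CM.sub {a b : Type} {F H : E → Matrix a b 𝕜} {q : E} (hF : CM F q) (hH : CM H q) :
    CM (fun r => F r - H r) q := fun i j => (hF i j).sub (hH i j)

theorem CM.smul {a b : Type} {F : E → Matrix a b 𝕜} {f : E → 𝕜} {q : E}
    (hf : ContDiffAt ℝ 2 f q) (hF : CM F q) :
    CM (fun r => f r • F r) q := fun i j => hf.mul (hF i j)

theorem CM.mul {a b c : Type} [Fintype b] {F : E → Matrix a b 𝕜} {H : E → Matrix b c 𝕜} {q : E}
    (hF : CM F q) (hH : CM H q) : CM (fun r => F r * H r) q := by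
  intro i j
  simp only [Matrix.mul_apply]
  exact ContDiffAt.sum fun k _ => (hF i k).mul (hH k j)

theorem CM.pow {a : Type} [Fintype a] [DecidableEq a] {F : E → Matrix a a 𝕜} {q : E}
    (hF : CM F q) (n : ℕ) : CM (fun r => F r ^ n) q := by
  induction n with
  | zero => simp only [pow_zero]; exact CM.const _ _
  | succ n ih => simp only [pow_succ]; exact ih.mul hF

theorem CM.diag {a : Type} [DecidableEq a] {f : E → a → 𝕜} {q : E}
    (hf : ∀ i, ContDiffAt ℝ 2 (fun r => f r i) q) : CM (fun r => Matrix.diagonal (f r)) q := by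
  intro i j
  by_cases h : i = j
  · subst h
    simp only [Matrix.diagonal_apply_eq]
    exact hf i
  · simp only [Matrix.diagonal_apply_ne _ h]
    exact contDiffAt_const

theorem CM.trace {a : Type} [Fintype a] {F : E → Matrix a a 𝕜} {q : E} (hF : CM F q) :
    ContDiffAt ℝ 2 (fun r => Matrix.trace (F r)) q := by
  unfold Matrix.trace
  exact ContDiffAt.sum fun k _ => hF k k

theorem CM.mulVec {a b : Type} [Fintype b] {F : E → Matrix a b 𝕜} {f : E → b → 𝕜} {q : E}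
    (hF : CM F q) (hf : ∀ i, ContDiffAt ℝ 2 (fun r => f r i) q) (i : a) :
    ContDiffAt ℝ 2 (fun r => (F r *ᵥ f r) i) q := by
  simp only [Matrix.mulVec, dotProduct]
  exact ContDiffAt.sum fun k _ => (hF i k).mul (hf k)

end smooth

theorem CM.star {E : Type} [NormedAddCommGroup E] [NormedSpace ℝ E] {a b : Type}
    {F : E → Matrix a b ℂ} {q : E} (hF : CM F q) : CM (fun r => (F r)ᴴ) q := by
  intro i j
  simp only [Matrix.conjTranspose_apply]
  exact (Complex.conjCLE.contDiff.contDiffAt (x := F q j i)).comp q (hF j i)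

theorem nsqC {E : Type} [NormedAddCommGroup E] [NormedSpace ℝ E] {f : E → ℂ} {q : E}
    (hf : ContDiffAt ℝ 2 f q) : ContDiffAt ℝ 2 (fun r => ‖f r‖ ^ 2) q := hf.norm_sq ℝ

theorem ofRealC {E : Type} [NormedAddCommGroup E] [NormedSpace ℝ E] {f : E → ℝ} {q : E}
    (hf : ContDiffAt ℝ 2 f q) : ContDiffAt ℝ 2 (fun r => ((f r : ℝ) : ℂ)) q :=
  (Complex.ofRealCLM.contDiff.contDiffAt (x := f q)).comp q hf

/-- a function with smooth entries has a jet -/
theorem CM.hm {ι : Type} [Fintype ι] [DecidableEq ι] {𝕜 : Type} [RCLike 𝕜] {a b : Type}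
    {F : ℝ × (ι → ℝ) → Matrix a b 𝕜} {q : ℝ × (ι → ℝ)} (hF : CM F q) :
    HM F q (F q) (fun c i j => dC c (fun r => F r i j) q) (fun i j => LL (fun r => F r i j) q) :=
  fun i j => ⟨hF i j, rfl, fun _ => rfl, rfl⟩

theorem CM.inv (jma : JmaStmt) {ι : Type} [Fintype ι] [DecidableEq ι] {𝕜 : Type} [RCLike 𝕜]
    {n : Type} [Fintype n] [DecidableEq n] {F : ℝ × (ι → ℝ) → Matrix n n 𝕜} {q : ℝ × (ι → ℝ)}
    (hF : CM F q) (hu : IsUnit (F q).det) : CM (fun r => (F r)⁻¹) q := fun i j =>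
  ((((jma ι 𝕜 q).2 n F (F q) _ _ hF.hm).1 hu) i j).sm

/-- the trace of the power is at least one if `1 - Y` is singular -/
theorem tr_ge {X : Type} [Fintype X] [DecidableEq X] (Y : Matrix X X ℂ) (hY : (1 - Y).det = 0)
    (j : ℕ) : 1 ≤ (Matrix.trace ((Y * Yᴴ) ^ j)).re := by
  have hd : (1 - Yᴴ).det = 0 := by
    have h1 : (1 - Yᴴ) = (1 - Y)ᴴ := by
      rw [Matrix.conjTranspose_sub, Matrix.conjTranspose_one]
    rw [h1, Matrix.det_conjTranspose, hY, star_zero]
  obtain ⟨v, hv0, hv⟩ := Matrix.exists_mulVec_eq_zero_iff.mpr hd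
  have hv1 : Yᴴ *ᵥ v = v := by
    rw [Matrix.sub_mulVec, Matrix.one_mulVec, sub_eq_zero] at hv
    exact hv.symm
  have hps : (Y * Yᴴ).PosSemidef := Matrix.posSemidef_self_mul_conjTranspose Y
  obtain ⟨U, l, hU1, hU2, hP, hl⟩ := exists_diag hps.isHermitian
  have hl0 : ∀ i, 0 ≤ l i := fun i => by rw [hl]; exact hps.eigenvalues_nonneg i
  have htr : (Matrix.trace ((Y * Yᴴ) ^ j)).re = ∑ i, l i ^ j := by
    rw [hP, diag_pow hU2 hU1, Matrix.trace_mul_comm, ← Matrix.mul_assoc, hU2, Matrix.one_mul,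
      Matrix.trace_diagonal, Complex.re_sum]
    simp only [Complex.ofReal_re]
  by_contra hcon
  rw [htr, not_le] at hcon
  have hl1 : ∀ i, l i < 1 := by
    intro i
    have h1 : l i ^ j ≤ ∑ i, l i ^ j :=
      Finset.single_le_sum (f := fun i => l i ^ j) (fun k _ => pow_nonneg (hl0 k) j)
        (Finset.mem_univ i)
    by_contra h2
    rw [not_lt] at h2
    have h3 : 1 ≤ l i ^ j := one_le_pow₀ h2
    linarith
  have hUt : (Uᴴ)ᴴ * Uᴴ = 1 := by rw [Matrix.conjTranspose_conjTranspose, hU1]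
  have e1 : star v ⬝ᵥ ((Y * Yᴴ) *ᵥ v) = (nsq v : ℂ) := by
    rw [← Matrix.mulVec_mulVec, hv1, Matrix.dotProduct_mulVec]
    have h2 : star v ᵥ* Y = star v := by
      have h3 := congrArg star hv1
      rw [Matrix.star_mulVec, Matrix.conjTranspose_conjTranspose] at h3
      exact h3
    rw [h2, star_dot_self]
  have e2 : star v ⬝ᵥ ((Y * Yᴴ) *ᵥ v) = ((∑ i, l i * ‖(Uᴴ *ᵥ v) i‖ ^ 2 : ℝ) : ℂ) := by
    rw [hP, ← Matrix.mulVec_mulVec, ← Matrix.mulVec_mulVec, Matrix.dotProduct_mulVec]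
    have h2 : star v ᵥ* U = star (Uᴴ *ᵥ v) := by
      rw [Matrix.star_mulVec, Matrix.conjTranspose_conjTranspose]
    rw [h2]
    simp only [dotProduct, Matrix.mulVec_diagonal]
    push_cast
    apply Finset.sum_congr rfl
    intro i _
    have := Complex.mul_conj ((Uᴴ *ᵥ v) i)
    rw [Complex.normSq_eq_norm_sq] at this
    rw [Pi.star_apply]
    have h3 : star ((Uᴴ *ᵥ v) i) * ((l i : ℂ) * (Uᴴ *ᵥ v) i) =
        (l i : ℂ) * ((Uᴴ *ᵥ v) i * (starRingEnd ℂ) ((Uᴴ *ᵥ v) i)) := by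
      rw [starRingEnd_apply]
      ring
    rw [h3, this]
    push_cast
    ring
  have e3 : nsq v = ∑ i, l i * ‖(Uᴴ *ᵥ v) i‖ ^ 2 := by
    have := e1.symm.trans e2
    exact_mod_cast this
  have e4 : nsq (Uᴴ *ᵥ v) = nsq v := nsq_mulVec_unitary hUt v
  have hpos : 0 < nsq (Uᴴ *ᵥ v) := by
    rw [e4]
    obtain ⟨i, hi⟩ := Function.ne_iff.mp hv0
    unfold nsq
    apply Finset.sum_pos' (fun k _ => by positivity)
    exact ⟨i, Finset.mem_univ i, by
      have : 0 < ‖v i‖ := norm_pos_iff.mpr hi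
      positivity⟩
  have hex : ∃ i, (Uᴴ *ᵥ v) i ≠ 0 := by
    by_contra h
    push Not at h
    have : nsq (Uᴴ *ᵥ v) = 0 := by
      unfold nsq
      exact Finset.sum_eq_zero fun i _ => by rw [h i]; simp
    linarith
  have hlt : ∑ i, l i * ‖(Uᴴ *ᵥ v) i‖ ^ 2 < nsq (Uᴴ *ᵥ v) := by
    unfold nsq
    apply Finset.sum_lt_sum
    · intro i _
      have := (hl1 i).le
      nlinarith [sq_nonneg ‖(Uᴴ *ᵥ v) i‖]
    · obtain ⟨i, hi⟩ := hex
      refine ⟨i, Finset.mem_univ i, ?_⟩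
      have h1 : 0 < ‖(Uᴴ *ᵥ v) i‖ := norm_pos_iff.mpr hi
      have h2 := hl1 i
      have h3 : 0 < ‖(Uᴴ *ᵥ v) i‖ ^ 2 := by positivity
      nlinarith
  rw [e4, ← e3] at hlt
  exact lt_irrefl _ hlt

/-- the Laplacian is nonnegative -/
theorem qf_Dl {X : Type} [Fintype X] [DecidableEq X] (K : Matrix X X ℝ)
    (hs : ∀ a b, K a b = K b a) (h0 : ∀ a b, 0 ≤ K a b) (f : X → ℝ) : 0 ≤ qf (Dl K) f := by
  have h1 : qf (Dl K) f = ∑ a, ∑ b, K a b * (f a ^ 2 - f a * f b) := by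
    unfold qf Dl
    apply Finset.sum_congr rfl
    intro a _
    rw [Matrix.sub_mulVec, Pi.sub_apply, Matrix.mulVec_diagonal]
    simp only [Matrix.mulVec, dotProduct]
    rw [Finset.sum_mul, ← Finset.sum_sub_distrib, Finset.mul_sum]
    apply Finset.sum_congr rfl
    intro b _
    ring
  have h2 : ∑ a, ∑ b, K a b * (f a ^ 2 - f a * f b) =
      ∑ a, ∑ b, K a b * (f b ^ 2 - f a * f b) := by
    rw [Finset.sum_comm]
    apply Finset.sum_congr rfl
    intro a _
    apply Finset.sum_congr rfl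
    intro b _
    rw [hs a b]
    ring
  have h3 : 2 * qf (Dl K) f = ∑ a, ∑ b, K a b * (f a - f b) ^ 2 := by
    have h5 : 2 * qf (Dl K) f = (∑ a, ∑ b, K a b * (f a ^ 2 - f a * f b)) +
        ∑ a, ∑ b, K a b * (f b ^ 2 - f a * f b) := by
      rw [← h2, ← h1]
      ring
    rw [h5, ← Finset.sum_add_distrib]
    apply Finset.sum_congr rfl
    intro a _
    rw [← Finset.sum_add_distrib]
    apply Finset.sum_congr rfl
    intro b _
    ring
  have h4 : 0 ≤ ∑ a, ∑ b, K a b * (f a - f b) ^ 2 :=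
    Finset.sum_nonneg fun a _ => Finset.sum_nonneg fun b _ => mul_nonneg (h0 a b) (sq_nonneg _)
  linarith

theorem usm (jma : JmaStmt) (wab : WabStmt) (nnu : NnuStmt) (rsj : RsjStmt) : UsmStmt := by
  intro d M _ D c₁ C₁ c₀ k₀ q hc₁ hc₀ hA hq0 hqT
  have hη := hA.hT.2.1
  have hm : 0 < D.m.im := lt_of_lt_of_le hc₁ hA.hm.1
  have hkp : 0 < D.kp q.1 := by
    have h1 : 0 ≤ (D.T - q.1) * D.m.im := mul_nonneg (by linarith) hm.le
    unfold Dat.kp
    linarith
  obtain ⟨hJ, _, _, hkt, _, hLs, _⟩ := rsj d M D c₁ C₁ c₀ k₀ q hc₁ hA hkp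
  have hta : 0 < D.ta q.1 := div_pos hkp hm
  have hε : 0 < D.ε₁ := lt_of_lt_of_le hA.hδ.1 hA.hδ.2.1
  have hε2 : D.ε₁ ≤ 1 / 2 := le_trans hA.hδ.2.2 hc₀
  -- smoothness of the entries
  have cG : CM D.G q := fun a b => (hJ.hG a b).sm
  have cta : ContDiffAt ℝ 2 (fun r : ℝ × (Tor d M → ℝ) => D.ta r.1) q :=
    hJ.ht.1.comp q contDiffAt_fst
  have cLs : ContDiffAt ℝ 2 (fun r : ℝ × (Tor d M → ℝ) => D.Ls r.1) q :=
    hLs.comp q contDiffAt_fst
  have ctaC := ofRealC cta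
  have cBB : CM (fun r => BB (D.G r)) q := fun a b => (cG a b).pow 2
  have cKK : CM (fun r => KK (D.G r)) q := fun a b => nsqC (cG a b)
  have cY : CM D.Y q := CM.smul ctaC cBB
  have cmu : ∀ a, ContDiffAt ℝ 2 (fun r => D.mu r a) q := fun a =>
    (cG a a).sub contDiffAt_const
  have cU3 : ContDiffAt ℝ 2 D.U3 q := by
    have h1 := (((cY.mul cY.star).pow D.j)).trace
    have h2 := (Complex.reCLM.contDiff.contDiffAt
      (x := (fun r => Matrix.trace ((D.Y r * (D.Y r)ᴴ) ^ D.j)) q)).comp q h1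
    exact h2.div_const _
  by_cases hu : IsUnit (1 - D.Y q).det
  · right
    have cTh : CM D.Th q := CM.inv jma ((CM.const _ q).sub cY) hu
    have cph : ∀ a, ContDiffAt ℝ 2 (fun r => D.ph r a) q := fun a => cTh.mulVec cmu a
    have cU1 : ContDiffAt ℝ 2 D.U1 q :=
      ContDiffAt.sum fun a _ => ((nsqC (cph a)).div_const _).pow _
    have cXh : CM D.Xh q :=
      (cG.add (CM.smul ctaC ((cG.mul (CM.diag cph)).mul cG))).sub (CM.const _ q)
    have cU2 : ContDiffAt ℝ 2 D.U2 q :=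
      ContDiffAt.sum fun a _ => ContDiffAt.sum fun b _ => ((nsqC (cXh a b)).div_const _).pow _
    have cLa : ∀ a, ContDiffAt ℝ 2 (fun r => D.La r a) q := fun a =>
      ContDiffAt.sum fun b _ => (cKK a b).pow 2
    have hLs0 : D.Ls q.1 ≠ 0 := by
      have h1 : 0 < D.L₀ := by linarith [hA.hj.2.2.1]
      have h2 : 0 < D.N := by linarith [hA.hj.2.2.2.1]
      have h3 := hA.hj.2.2.2.2
      have h4 := hA.hδ.1
      unfold Dat.Ls
      positivity
    have cU4 : ContDiffAt ℝ 2 D.U4 q :=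
      ContDiffAt.sum fun a _ => ((cLa a).div cLs hLs0).pow _
    have hKs : ∀ a b, KK (D.G q) a b = KK (D.G q) b a := fun a b => by
      unfold KK
      rw [hJ.hs a b]
    have hK0 : ∀ a b, 0 ≤ KK (D.G q) a b := fun a b => by
      unfold KK
      positivity
    have hXs : ∀ a b, D.X q a b = D.X q b a := by
      intro a b
      show D.ta q.1 * Dl (KK (D.G q)) a b = D.ta q.1 * Dl (KK (D.G q)) b a
      congr 1
      unfold Dl
      rw [Matrix.sub_apply, Matrix.sub_apply, hKs a b]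
      congr 1
      by_cases h : a = b
      · subst h; rfl
      · rw [Matrix.diagonal_apply_ne _ h, Matrix.diagonal_apply_ne _ (Ne.symm h)]
    have hX0 : ∀ f, 0 ≤ qf (D.X q) f := by
      intro f
      have h1 : qf (D.X q) f = D.ta q.1 * qf (Dl (KK (D.G q))) f := by
        unfold qf Dat.X
        rw [Finset.mul_sum]
        apply Finset.sum_congr rfl
        intro a _
        rw [Matrix.smul_mulVec, Pi.smul_apply, smul_eq_mul]
        ring
      rw [h1]
      exact mul_nonneg hta.le (qf_Dl _ hKs hK0 f)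
    obtain ⟨hu1, hu2, _⟩ := wab (Tor d M) (D.X q) D.S D.e₀ D.e₁ (D.ta q.1) D.ϖ D.p hXs hX0
      hA.hS.1 hA.hS.2.1 (by linarith [hA.he.1, hA.he.2.1]) (by linarith [hA.he.1]) hta.le
      hA.hϖ.1 (by linarith [hA.hj.2.1])
    have cX : CM D.X q := CM.smul cta
      (CM.sub (CM.diag fun a => ContDiffAt.sum fun b _ => cKK a b) cKK)
    have cW : CM D.W q := CM.inv jma ((cX.add (CM.const _ q)).add (CM.const _ q)) hu2
    have cA : CM (fun r : ℝ × (Tor d M → ℝ) => (D.A r.1)⁻¹) q :=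
      CM.inv jma ((CM.const _ q).add (CM.smul cta (CM.const _ q))) hu1
    have cU5 : ContDiffAt ℝ 2 D.U5 q := ((cA.mul cW).pow _).trace
    exact (((cU1.add cU2).add cU3).add cU4).add cU5
  · left
    have hdet : (1 - D.Y q).det = 0 := by
      by_contra h
      exact hu (isUnit_iff_ne_zero.mpr h)
    have htr := tr_ge (D.Y q) hdet D.j
    have hU3 : 1 < D.U3 q := by
      have h1 : D.ε₁ ^ (2 * D.j) < 1 := pow_lt_one₀ hε.le (by linarith)
        (by have := hA.hj.1; omega)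
      have h2 : 0 < D.ε₁ ^ (2 * D.j) := by positivity
      unfold Dat.U3
      rw [lt_div_iff₀ h2]
      linarith
    have h1 : ∀ᶠ r in 𝓝 q, 1 < D.U3 r := cU3.continuousAt.eventually_const_lt hU3
    have h2 : ∀ᶠ r : ℝ × (Tor d M → ℝ) in 𝓝 q, 0 < D.kp r.1 := by
      have hc : Continuous fun r : ℝ × (Tor d M → ℝ) => D.kp r.1 := by
        unfold Dat.kp
        fun_prop
      exact hc.continuousAt.eventually_const_lt hkp
    filter_upwards [h1, h2] with r hr1 hr2
    obtain ⟨n1, n2, n3, n4, n5⟩ := nnu d M D c₁ C₁ c₀ k₀ r hc₁ hA hr2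
    unfold Dat.U
    linarith

end Pool.Agent.LE.QF.H44
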